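import Pool.Agent.Run7.h420.Rigid

/-!
# Rigidity of the meridian for homology cobordisms of boundaries of genus `g` traces, `g ≥ 2`

`TraceGroup g m l` is `⟨G, a_i, b_i | [m,a_i] = [m,b_i] = 1, l = ∏ [a_i,b_i]⟩`; for a knot group `G`
with meridian `m` and longitude `l` it is the fundamental group of `∂X^g(K)` (van Kampen).
`Cls g m l` is its quotient by the third term of the lower central series. By Stallings' theorem a
homology cobordism induces an isomorphism of these quotients.
-/

set_option autoImplicit false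

namespace Pool.Agent.Results.MP_de2099_gt.MeridianRigidity

open Run7.h420

theorem result (g : ℕ) (hg : 2 ≤ g) (G H : Type) [Group G] [Group H] (m l : G) (m' l' : H)
    (hG : IsPeripheral m l) (hH : IsPeripheral m' l') (φ : Cls g m l ≃* Cls g m' l') :
    (∃ ε : ℤ, (ε = 1 ∨ ε = -1) ∧ HasCoords (ab (φ (ofG g m l m))) ε 0) ∧
    (∃ M : Matrix (Fin g ⊕ Fin g) (Fin g ⊕ Fin g) ℤ, ∃ δ : ℤ, (δ = 1 ∨ δ = -1) ∧
      M.transpose * Matrix.J (Fin g) ℤ * M = δ • Matrix.J (Fin g) ℤ ∧
      ∀ s, ∃ k : ℤ, HasCoords (ab (φ (gn g m l s))) k (M s)) :=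
  rigidity hg hG hH φ

end Pool.Agent.Results.MP_de2099_gt.MeridianRigidity
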